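import Mathlib

/-! Polynomials over `ZMod 2` encoded as bit masks, for kernel computations. -/

open Polynomial

namespace Pool.Agent.V11174.BitPoly

/-- The polynomial over `ZMod 2` whose coefficient of `X ^ i` is the `i`-th bit of `n`. -/
noncomputable def P (n : ℕ) : (ZMod 2)[X] :=
  if h : n = 0 then 0 else (if n % 2 = 1 then 1 else 0) + X * P (n / 2)
termination_by n
decreasing_by omega

theorem P_zero : P 0 = 0 := by rw [P]; simp

theorem P_eq (n : ℕ) : P n = (if n % 2 = 1 then 1 else 0) + X * P (n / 2) := by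
  by_cases h : n = 0
  · subst h; simp [P_zero]
  · conv_lhs => rw [P]
    simp [h]

theorem P_one : P 1 = 1 := by rw [P_eq]; simp [P_zero]

theorem P_two_mul (n : ℕ) : P (2 * n) = X * P n := by
  rw [P_eq (2 * n)]
  have h1 : 2 * n % 2 = 0 := by omega
  have h2 : 2 * n / 2 = n := by omega
  rw [h1, h2]; simp

theorem P_two_mul_add_one (n : ℕ) : P (2 * n + 1) = 1 + X * P n := by
  rw [P_eq (2 * n + 1)]
  have h1 : (2 * n + 1) % 2 = 1 := by omega
  have h2 : (2 * n + 1) / 2 = n := by omega
  rw [h1, h2]; simp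

theorem two_eq_zero' : (1 : (ZMod 2)[X]) + 1 = 0 := by
  rw [← two_mul, mul_one]
  have : ((2 : ℕ) : (ZMod 2)[X]) = 0 := CharP.cast_eq_zero _ 2
  exact_mod_cast this

theorem add_self_eq (p : (ZMod 2)[X]) : p + p = 0 := by
  have : p + p = (1 + 1) * p := by ring
  rw [this, two_eq_zero', zero_mul]

theorem P_xor (a b : ℕ) : P (a ^^^ b) = P a + P b := by
  induction a using Nat.strong_induction_on generalizing b with
  | _ a ih =>
    by_cases ha : a = 0
    · subst ha; simp [P_zero]
    · rw [P_eq (a ^^^ b), P_eq a, P_eq b, Nat.xor_div_two, Nat.xor_mod_two_eq,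
        ih (a / 2) (by omega)]
      have e : (if (a + b) % 2 = 1 then (1 : (ZMod 2)[X]) else 0)
          = (if a % 2 = 1 then 1 else 0) + (if b % 2 = 1 then 1 else 0) := by
        rcases Nat.mod_two_eq_zero_or_one a with h | h <;>
          rcases Nat.mod_two_eq_zero_or_one b with h' | h' <;>
          simp [Nat.add_mod, h, h', two_eq_zero']
      rw [e]; ring

/-- Multiplication by `X`, reduced by the degree-`d` mask `f`. -/
def step (f d a : ℕ) : ℕ := if (2 * a).testBit d then (2 * a) ^^^ f else 2 * a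

/-- Multiplication modulo `f`. -/
def mulm (f d : ℕ) : ℕ → ℕ → ℕ → ℕ
  | 0, _, _ => 0
  | k+1, a, b => (if b % 2 = 1 then a else 0) ^^^ mulm f d k (step f d a) (b / 2)

variable {R : Type*} [CommRing R] (φ : (ZMod 2)[X] →+* R)

theorem step_spec {f d : ℕ} (hf : φ (P f) = 0) (a : ℕ) :
    φ (P (step f d a)) = φ X * φ (P a) := by
  unfold step
  split_ifs
  · rw [P_xor, P_two_mul, map_add, hf, add_zero, map_mul]
  · rw [P_two_mul, map_mul]

theorem iter_spec {f d : ℕ} (hf : φ (P f) = 0) (a k : ℕ) :
    φ (P ((step f d)^[k] a)) = φ X ^ k * φ (P a) := by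
  induction k generalizing a with
  | zero => simp
  | succ k ih =>
    rw [Function.iterate_succ_apply, ih, step_spec φ hf, pow_succ]; ring

theorem iter_one_spec {f d : ℕ} (hf : φ (P f) = 0) (k : ℕ) :
    φ (P ((step f d)^[k] 1)) = φ X ^ k := by
  rw [iter_spec φ hf, P_one, map_one, mul_one]

theorem mulm_spec {f d : ℕ} (hf : φ (P f) = 0) (k a b : ℕ) (hb : b < 2 ^ k) :
    φ (P (mulm f d k a b)) = φ (P a) * φ (P b) := by
  induction k generalizing a b with
  | zero =>
    have : b = 0 := by simpa using hb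
    subst this; simp [mulm, P_zero]
  | succ k ih =>
    have hb2 : b / 2 < 2 ^ k := by rw [pow_succ] at hb; omega
    rw [mulm, P_xor, map_add, ih _ _ hb2, step_spec φ hf]
    conv_rhs => rw [P_eq b, map_add, map_mul]
    split_ifs
    · rw [map_one]; ring
    · rw [P_zero, map_zero]; ring

end Pool.Agent.V11174.BitPoly
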