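import Mathlib
import Pool.Agent.V11174.BitPoly

/-! Definitions and general lemmas for folding linear recurring sequences. -/

open Polynomial

namespace Pool.Agent.V11174.Folding

/-- Doubly periodic `r₁ × r₂` binary arrays (indices mod `r₁` and mod `r₂`). -/
abbrev Arr (r₁ r₂ : ℕ) := ZMod r₁ → ZMod r₂ → ZMod 2

/-- The cyclic shift of an array by `(u, v)`. -/
def shift {r₁ r₂ : ℕ} (A : Arr r₁ r₂) (u : ZMod r₁) (v : ZMod r₂) : Arr r₁ r₂ :=
  fun i j => A (i + u) (j + v)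

/-- The `n₁ × n₂` window of `A` at `(i, j)`. -/
def window {r₁ r₂ : ℕ} (n₁ n₂ : ℕ) (A : Arr r₁ r₂) (i : ZMod r₁) (j : ZMod r₂) :
    Fin n₁ → Fin n₂ → ZMod 2 :=
  fun a b => A (i + ((a : ℕ) : ZMod r₁)) (j + ((b : ℕ) : ZMod r₂))

/-- `C` is an `(r₁, r₂; n₁, n₂)`-PRAC (pseudo-random array code). -/
structure IsPRAC (r₁ r₂ n₁ n₂ : ℕ) (C : Set (Arr r₁ r₂)) : Prop where
  /-- `r₁ r₂` divides `2 ^ (n₁ n₂) - 1` -/
  dvd : r₁ * r₂ ∣ 2 ^ (n₁ * n₂) - 1
  /-- every nonzero `n₁ × n₂` matrix occurs exactly once as a window of exactly one array -/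
  window_once : ∀ M : Fin n₁ → Fin n₂ → ZMod 2, M ≠ 0 →
    ∃! p : Arr r₁ r₂ × ZMod r₁ × ZMod r₂, p.1 ∈ C ∧ window n₁ n₂ p.1 p.2.1 p.2.2 = M
  /-- shift-and-add -/
  shift_add : ∀ A ∈ C, ∀ B : Arr r₁ r₂,
    ((B ∈ C ∧ A ≠ B) ∨ ∃ u v, (u, v) ≠ ((0 : ZMod r₁), (0 : ZMod r₂)) ∧ B = shift A u v) →
    ∃ D ∈ C, ∃ u v, A + B = shift D u v

/-- The sequence `s` satisfies the linear recurrence with characteristic polynomial `f`. -/
def Generates (f : (ZMod 2)[X]) (s : ℕ → ZMod 2) : Prop :=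
  ∀ i, ∑ j ∈ Finset.range (f.natDegree + 1), f.coeff j * s (i + j) = 0

/-- `t` is a shift of `s`. -/
def IsShiftOf (s t : ℕ → ZMod 2) : Prop := ∃ k, ∀ i, t i = s (i + k)

/-- `A` is the folding of `s`: `A[i mod r₁, i mod r₂] = s i` for `0 ≤ i < r₁ r₂`. -/
def IsFold (r₁ r₂ : ℕ) (s : ℕ → ZMod 2) (A : Arr r₁ r₂) : Prop :=
  ∀ i < r₁ * r₂, A (i : ZMod r₁) (i : ZMod r₂) = s i

/-- `C` is obtained by folding the nonzero sequences generated by `f`, one sequence chosen in
each class of sequences under shifts. -/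
def IsFoldingOf (r₁ r₂ : ℕ) (f : (ZMod 2)[X]) (C : Set (Arr r₁ r₂)) : Prop :=
  ∃ S : Set (ℕ → ZMod 2), (∀ s ∈ S, s ≠ 0 ∧ Generates f s) ∧
    (∀ s, s ≠ 0 → Generates f s → ∃! t, t ∈ S ∧ IsShiftOf s t) ∧
    C = {A | ∃ s ∈ S, IsFold r₁ r₂ s A}

/-- `f` has exponent `e`: `e` is the least positive integer with `f ∣ X ^ e - 1`. -/
def HasExponent (f : (ZMod 2)[X]) (e : ℕ) : Prop :=
  IsLeast {e : ℕ | 1 ≤ e ∧ f ∣ X ^ e - 1} e

/-- The shift operator on sequences. -/
def T : Module.End (ZMod 2) (ℕ → ZMod 2) where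
  toFun s := fun i => s (i + 1)
  map_add' _ _ := rfl
  map_smul' _ _ := rfl

theorem T_pow_apply (k : ℕ) (s : ℕ → ZMod 2) (i : ℕ) : (T ^ k) s i = s (i + k) := by
  induction k generalizing i with
  | zero => simp
  | succ k ih =>
    rw [pow_succ', Module.End.mul_apply]
    show (T ^ k) s (i + 1) = _
    rw [ih]; congr 1; omega

theorem aeval_T_apply (g : (ZMod 2)[X]) (s : ℕ → ZMod 2) (i : ℕ) :
    aeval T g s i = ∑ j ∈ Finset.range (g.natDegree + 1), g.coeff j * s (i + j) := by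
  rw [aeval_eq_sum_range, LinearMap.sum_apply, Finset.sum_apply]
  refine Finset.sum_congr rfl fun j _ => ?_
  rw [LinearMap.smul_apply, Pi.smul_apply, T_pow_apply, smul_eq_mul]

theorem generates_iff (f : (ZMod 2)[X]) (s : ℕ → ZMod 2) :
    Generates f s ↔ aeval T f s = 0 := by
  constructor
  · intro h; funext i; rw [aeval_T_apply]; exact h i
  · intro h i; rw [← aeval_T_apply, h]; rfl

theorem aeval_of_dvd {f g : (ZMod 2)[X]} (h : f ∣ g) {s : ℕ → ZMod 2} (hs : Generates f s) :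
    aeval T g s = 0 := by
  obtain ⟨q, rfl⟩ := h
  rw [mul_comm, map_mul, Module.End.mul_apply, (generates_iff f s).1 hs, map_zero]

theorem aeval_X_pow_apply (k : ℕ) (s : ℕ → ZMod 2) (i : ℕ) :
    aeval T ((X : (ZMod 2)[X]) ^ k) s i = s (i + k) := by
  rw [map_pow, aeval_X, T_pow_apply]

/-- sequences generated by `f` are closed under shifts -/
theorem generates_shift {f : (ZMod 2)[X]} {s : ℕ → ZMod 2} (hs : Generates f s) (k : ℕ) :
    Generates f (fun i => s (i + k)) := by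
  intro i
  have := hs (i + k)
  refine Eq.trans (Finset.sum_congr rfl fun j _ => ?_) this
  show f.coeff j * s (i + j + k) = f.coeff j * s (i + k + j)
  rw [show i + j + k = i + k + j by omega]

theorem generates_add {f : (ZMod 2)[X]} {s t : ℕ → ZMod 2} (hs : Generates f s)
    (ht : Generates f t) : Generates f (s + t) := by
  rw [generates_iff] at *
  rw [map_add, hs, ht, add_zero]

theorem periodic_of_dvd {f : (ZMod 2)[X]} {e : ℕ} (h : f ∣ X ^ e - 1) {s : ℕ → ZMod 2}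
    (hs : Generates f s) (i : ℕ) : s (i + e) = s i := by
  have := congrFun (aeval_of_dvd h hs) i
  rw [map_sub, LinearMap.sub_apply, map_one] at this
  have h2 : aeval T ((X : (ZMod 2)[X]) ^ e) s i - s i = 0 := this
  rw [aeval_X_pow_apply] at h2
  exact sub_eq_zero.1 h2

theorem periodic_mul {e : ℕ} {s : ℕ → ZMod 2} (h : ∀ i, s (i + e) = s i) (i k : ℕ) :
    s (i + e * k) = s i := by
  induction k with
  | zero => simp
  | succ k ih => rw [Nat.mul_succ, ← add_assoc, h, ih]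

theorem periodic_congr {e : ℕ} {s : ℕ → ZMod 2} (h : ∀ i, s (i + e) = s i) {i j : ℕ}
    (hij : i % e = j % e) : s i = s j := by
  rw [← Nat.mod_add_div i e, ← Nat.mod_add_div j e, periodic_mul h, periodic_mul h, hij]

/-- A sequence generated by an irreducible `f`, with a coincidence between two of its shifts. -/
theorem dvd_of_shift_eq {f : (ZMod 2)[X]} (hf : Irreducible f) {s : ℕ → ZMod 2}
    (hs : Generates f s) (h0 : s ≠ 0) {k : ℕ} (hk : ∀ i, s (i + k) = s i) :
    f ∣ X ^ k - 1 := by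
  by_contra hcon
  have hcop : IsCoprime f (X ^ k - 1) := (hf.coprime_iff_not_dvd).2 hcon
  obtain ⟨a, b, hab⟩ := hcop
  apply h0
  have h1 : aeval T (a * f + b * (X ^ k - 1)) s = s := by rw [hab, map_one]; rfl
  rw [map_add, LinearMap.add_apply, map_mul, map_mul, Module.End.mul_apply,
    Module.End.mul_apply, (generates_iff f s).1 hs, map_zero, zero_add] at h1
  have h2 : aeval T ((X : (ZMod 2)[X]) ^ k - 1) s = 0 := by
    funext i
    rw [map_sub, LinearMap.sub_apply, map_one]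
    show aeval T ((X : (ZMod 2)[X]) ^ k) s i - s i = 0
    rw [aeval_X_pow_apply, hk, sub_self]
  rw [h2, map_zero] at h1
  exact h1.symm

/-- Existence of a set of representatives of the shift classes. -/
theorem exists_folding (r₁ r₂ : ℕ) {f : (ZMod 2)[X]} {e : ℕ} (he : 0 < e)
    (h : f ∣ X ^ e - 1) : ∃ C, IsFoldingOf r₁ r₂ f C := by
  classical
  let Y := {s : ℕ → ZMod 2 // s ≠ 0 ∧ Generates f s}
  have hper : ∀ s : Y, ∀ i, s.1 (i + e) = s.1 i := fun s => periodic_of_dvd h s.2.2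
  have hsymm : ∀ s t : Y, IsShiftOf s.1 t.1 → IsShiftOf t.1 s.1 := by
    rintro s t ⟨k, hk⟩
    refine ⟨e * k - k, fun i => ?_⟩
    rw [hk, show i + (e * k - k) + k = i + e * k from ?_, periodic_mul (hper s)]
    have : k ≤ e * k := Nat.le_mul_of_pos_left k he
    omega
  let r : Setoid Y :=
    { r := fun s t => IsShiftOf s.1 t.1
      iseqv := ⟨fun s => ⟨0, fun i => rfl⟩, fun {s t} hst => hsymm s t hst,
        fun {s t u} hst htu => by
          obtain ⟨k, hk⟩ := hst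
          obtain ⟨l, hl⟩ := htu
          exact ⟨l + k, fun i => by rw [hl, hk, add_assoc]⟩⟩ }
  let S : Set (ℕ → ZMod 2) := {s | ∃ q : Quotient r, (Quotient.out q).1 = s}
  refine ⟨{A | ∃ s ∈ S, IsFold r₁ r₂ s A}, S, ?_, ?_, rfl⟩
  · rintro s ⟨q, rfl⟩
    exact (Quotient.out q).2
  · intro s hs0 hs
    let y : Y := ⟨s, hs0, hs⟩
    refine ⟨(Quotient.out (Quotient.mk r y)).1, ⟨⟨_, rfl⟩, ?_⟩, ?_⟩
    · have : r.r y (Quotient.out (Quotient.mk r y)) := by
        have := Quotient.mk_out (s := r) y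
        exact r.symm this
      exact this
    · rintro t ⟨⟨q, rfl⟩, ht⟩
      have h1 : r.r y (Quotient.out q) := ht
      have h2 : Quotient.mk r y = q := by
        rw [← Quotient.out_eq q]
        exact Quotient.sound h1
      rw [h2]

end Pool.Agent.V11174.Folding
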