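import Mathlib

/-! Homogeneous latin squares: counting lemmas, direct products and sign extensions. -/

namespace Pool.Agent.V11174.HomExt

/-- Latin square on a type. -/
def IsLatin {I : Type*} (L : I → I → I) : Prop :=
  (∀ r, Function.Bijective (L r)) ∧ (∀ c, Function.Bijective fun r => L r c)

/-- Orthogonality. -/
def Orth {I : Type*} (L M : I → I → I) : Prop :=
  Function.Injective fun p : I × I => (L p.1 p.2, M p.1 p.2)

/-- The number of cells `(r', c')` opposite to `(r, c)` in a (possibly trivial) intercalate. -/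
def F {I : Type*} [Fintype I] [DecidableEq I] (L : I → I → I) (r c : I) : ℕ :=
  (Finset.univ.filter fun p : I × I => L r c = L p.1 p.2 ∧ L r p.2 = L p.1 c).card

/-- Existence of an orthogonal pair with constant count `k`. -/
def Good (k : ℕ) : Prop :=
  ∃ (I : Type) (_ : Fintype I) (_ : DecidableEq I) (_ : Nonempty I) (L M : I → I → I),
    IsLatin L ∧ IsLatin M ∧ Orth L M ∧ (∀ r c, F L r c = k) ∧ (∀ r c, F M r c = k)

section Product

variable {I J : Type*} (L : I → I → I) (K : J → J → J)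

/-- direct product -/
def prodSq (r c : I × J) : I × J := (L r.1 c.1, K r.2 c.2)

theorem isLatin_prod {L : I → I → I} {K : J → J → J} (hL : IsLatin L) (hK : IsLatin K) :
    IsLatin (prodSq L K) :=
  ⟨fun r => (hL.1 r.1).prodMap (hK.1 r.2), fun c => (hL.2 c.1).prodMap (hK.2 c.2)⟩

theorem orth_prod {L L' : I → I → I} {K K' : J → J → J} (h : Orth L L') (h' : Orth K K') :
    Orth (prodSq L K) (prodSq L' K') := by
  rintro ⟨⟨a, b⟩, ⟨c, d⟩⟩ ⟨⟨a', b'⟩, ⟨c', d'⟩⟩ he
  simp only [prodSq, Prod.mk.injEq] at he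
  have h1 := @h (a, c) (a', c') (by simp [he.1.1, he.2.1])
  have h2 := @h' (b, d) (b', d') (by simp [he.1.2, he.2.2])
  simp only [Prod.mk.injEq] at h1 h2
  rw [h1.1, h1.2, h2.1, h2.2]

theorem F_prod [Fintype I] [DecidableEq I] [Fintype J] [DecidableEq J] (r c : I × J) :
    F (prodSq L K) r c = F L r.1 c.1 * F K r.2 c.2 := by
  unfold F
  rw [← Finset.card_product]
  refine Finset.card_bij'
    (fun p _ => ((p.1.1, p.2.1), (p.1.2, p.2.2)))
    (fun p _ => ((p.1.1, p.2.1), (p.1.2, p.2.2))) ?_ ?_ ?_ ?_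
  · intro p hp
    simp only [Finset.mem_filter, Finset.mem_univ, true_and, Finset.mem_product, prodSq,
      Prod.mk.injEq] at hp ⊢
    tauto
  · intro p hp
    simp only [Finset.mem_filter, Finset.mem_univ, true_and, Finset.mem_product, prodSq,
      Prod.mk.injEq] at hp ⊢
    tauto
  · intro p _; rfl
  · intro p _; rfl

end Product

theorem good_mul {a b : ℕ} (ha : Good a) (hb : Good b) : Good (a * b) := by
  obtain ⟨I, _, _, _, L, M, hL, hM, hO, hFL, hFM⟩ := ha
  obtain ⟨J, _, _, _, L', M', hL', hM', hO', hFL', hFM'⟩ := hb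
  refine ⟨I × J, inferInstance, inferInstance, inferInstance, prodSq L L', prodSq M M',
    isLatin_prod hL hL', isLatin_prod hM hM', orth_prod hO hO', fun r c => ?_, fun r c => ?_⟩
  · rw [F_prod, hFL, hFL']
  · rw [F_prod, hFM, hFM']

theorem good_one : Good 1 := by
  refine ⟨Unit, inferInstance, inferInstance, inferInstance, fun _ _ => (), fun _ _ => (), ?_, ?_,
    ?_, ?_, ?_⟩
  · exact ⟨fun _ => ⟨fun _ _ _ => rfl, fun b => ⟨(), rfl⟩⟩, fun _ => ⟨fun _ _ _ => rfl, fun b => ⟨(), rfl⟩⟩⟩
  · exact ⟨fun _ => ⟨fun _ _ _ => rfl, fun b => ⟨(), rfl⟩⟩, fun _ => ⟨fun _ _ _ => rfl, fun b => ⟨(), rfl⟩⟩⟩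
  · intro a b _; exact Subsingleton.elim a b
  · rintro ⟨⟩ ⟨⟩; decide
  · rintro ⟨⟩ ⟨⟩; decide

section Extension

variable {n m : ℕ} (M0 : Fin n → Fin n → Fin n) (E G D : Fin n → Fin n → ℤ)

/-- The sign extension of `M0`. -/
def ext (m : ℕ) (r c : Fin n × ZMod m) : Fin n × ZMod m :=
  (M0 r.1 c.1, (E r.1 c.1 : ZMod m) * r.2 + (G r.1 c.1 : ZMod m) * c.2 + (D r.1 c.1 : ZMod m))

/-- a (possibly trivial) intercalate of the base square -/
def isQ (i j i' j' : Fin n) : Prop := M0 i j = M0 i' j' ∧ M0 i j' = M0 i' j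

instance (i j i' j' : Fin n) : Decidable (isQ M0 i j i' j') := by unfold isQ; infer_instance

/-- plain intercalates -/
def plain (i j i' j' : Fin n) : Prop :=
  isQ M0 i j i' j' ∧ (E i' j' * G i j' + G i' j' * E i' j = 2 ∨
    E i' j' * G i j' + G i' j' * E i' j = -2)

instance (i j i' j' : Fin n) : Decidable (plain M0 E G i j i' j') := by
  unfold plain; infer_instance

/-- proportionality of the two equations, with factor `E i j * E i j'` -/
def rank1 (i j i' j' : Fin n) : Prop :=
  -G i' j = E i j * E i j' * G i j ∧ E i' j = E i j * E i j' * E i' j' ∧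
    -G i j' = E i j * E i j' * G i' j'

instance (i j i' j' : Fin n) : Decidable (rank1 E G i j i' j') := by
  unfold rank1; infer_instance

/-- the defect of the constants -/
def vdef (i j i' j' : Fin n) : ℤ :=
  (D i' j - D i j') - E i j * E i j' * (D i' j' - D i j)

/-- consistent flat intercalates -/
def flatc (i j i' j' : Fin n) : Prop :=
  isQ M0 i j i' j' ∧ rank1 E G i j i' j' ∧ vdef E D i j i' j' = 0

instance (i j i' j' : Fin n) : Decidable (flatc M0 E G D i j i' j') := by
  unfold flatc; infer_instance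

/-- inconsistent flat intercalates -/
def flati (i j i' j' : Fin n) : Prop :=
  isQ M0 i j i' j' ∧ rank1 E G i j i' j' ∧
    (vdef E D i j i' j' = 1 ∨ vdef E D i j i' j' = -1 ∨ vdef E D i j i' j' = 2 ∨
      vdef E D i j i' j' = -2)

instance (i j i' j' : Fin n) : Decidable (flati M0 E G D i j i' j') := by
  unfold flati; infer_instance

/-- the signs are signs -/
def signs (E : Fin n → Fin n → ℤ) : Prop := ∀ i j, E i j = 1 ∨ E i j = -1

instance : Decidable (signs E) := by unfold signs; infer_instance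

variable {M0 E G D}

theorem cast_sq {E : Fin n → Fin n → ℤ} (hE : signs E) (m : ℕ) (i j : Fin n) :
    (E i j : ZMod m) * (E i j : ZMod m) = 1 := by
  rcases hE i j with h | h <;> simp [h]

theorem two_unit {m : ℕ} (hm : Odd m) : ∃ u : ZMod m, u * 2 = 1 := by
  obtain ⟨k, rfl⟩ := hm
  refine ⟨(-k : ZMod (2 * k + 1)), ?_⟩
  have : ((2 * k + 1 : ℕ) : ZMod (2 * k + 1)) = 0 := ZMod.natCast_self _
  push_cast at this
  linear_combination -this

theorem isLatin_ext (h0 : IsLatin M0) (hE : signs E) (hG : signs G) (m : ℕ) :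
    IsLatin (ext M0 E G D m) := by
  constructor
  · rintro ⟨i, x⟩
    constructor
    · rintro ⟨j, y⟩ ⟨j', y'⟩ h
      simp only [ext, Prod.mk.injEq] at h
      have hj : j = j' := (h0.1 i).1 h.1
      subst hj
      have h2 := h.2
      have hg := cast_sq hG m i j
      have : y = y' := by linear_combination (G i j : ZMod m) * h2 - (y - y') * hg
      rw [this]
    · rintro ⟨k, z⟩
      obtain ⟨j, hj⟩ := (h0.1 i).2 k
      refine ⟨(j, (G i j : ZMod m) * (z - (D i j : ZMod m) - (E i j : ZMod m) * x)), ?_⟩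
      simp only [ext, Prod.mk.injEq]
      refine ⟨hj, ?_⟩
      have hg := cast_sq hG m i j
      linear_combination (z - (D i j : ZMod m) - (E i j : ZMod m) * x) * hg
  · rintro ⟨j, y⟩
    constructor
    · rintro ⟨i, x⟩ ⟨i', x'⟩ h
      simp only [ext, Prod.mk.injEq] at h
      have hi : i = i' := (h0.2 j).1 h.1
      subst hi
      have h2 := h.2
      have hg := cast_sq hE m i j
      have : x = x' := by linear_combination (E i j : ZMod m) * h2 - (x - x') * hg
      rw [this]
    · rintro ⟨k, z⟩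
      obtain ⟨i, hi⟩ := (h0.2 j).2 k
      refine ⟨(i, (E i j : ZMod m) * (z - (D i j : ZMod m) - (G i j : ZMod m) * y)), ?_⟩
      simp only [ext, Prod.mk.injEq]
      refine ⟨hi, ?_⟩
      have hg := cast_sq hE m i j
      linear_combination (z - (D i j : ZMod m) - (G i j : ZMod m) * y) * hg

theorem orth_ext {M0' : Fin n → Fin n → Fin n} {E' G' D' : Fin n → Fin n → ℤ}
    (h0 : Orth M0 M0') (hm : Odd m)
    (hdet : ∀ i j, E i j * G' i j - G i j * E' i j = 2 ∨ E i j * G' i j - G i j * E' i j = -2) :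
    Orth (ext M0 E G D m) (ext M0' E' G' D' m) := by
  rintro ⟨⟨i, x⟩, ⟨j, y⟩⟩ ⟨⟨i', x'⟩, ⟨j', y'⟩⟩ h
  simp only [ext, Prod.mk.injEq] at h
  obtain ⟨⟨h1, h2⟩, ⟨h3, h4⟩⟩ := h
  have hij := @h0 (i, j) (i', j') (by simp [h1, h3])
  simp only [Prod.mk.injEq] at hij
  obtain ⟨rfl, rfl⟩ := hij
  obtain ⟨u, hu⟩ := two_unit hm
  have hd : ∃ v : ZMod m,
      v * ((E i j : ZMod m) * (G' i j : ZMod m) - (G i j : ZMod m) * (E' i j : ZMod m)) = 1 := by
    rcases hdet i j with h | h
    · refine ⟨u, ?_⟩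
      have hc : (E i j : ZMod m) * (G' i j : ZMod m) - (G i j : ZMod m) * (E' i j : ZMod m) = 2 := by
        exact_mod_cast congrArg (Int.cast : ℤ → ZMod m) h
      rw [hc, hu]
    · refine ⟨-u, ?_⟩
      have hc : (E i j : ZMod m) * (G' i j : ZMod m) - (G i j : ZMod m) * (E' i j : ZMod m) = -2 := by
        exact_mod_cast congrArg (Int.cast : ℤ → ZMod m) h
      rw [hc]; linear_combination hu
  obtain ⟨v, hv⟩ := hd
  have hx : x = x' := by
    linear_combination v * (G' i j : ZMod m) * h2 - v * (G i j : ZMod m) * h4 - (x - x') * hv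
  have hy : y = y' := by
    linear_combination -v * (E' i j : ZMod m) * h2 + v * (E i j : ZMod m) * h4 - (y - y') * hv
  rw [hx, hy]

/-- the number of solutions over one pair of base cells -/
theorem inner_count [NeZero m] (hm : Odd m) (hm3 : 3 ≤ m) (hE : signs E) (hG : signs G)
    (i j i' j' : Fin n)
    (hgood : isQ M0 i j i' j' → plain M0 E G i j i' j' ∨ flatc M0 E G D i j i' j' ∨
      flati M0 E G D i j i' j')
    (x y : ZMod m) :
    (Finset.univ.filter fun p : ZMod m × ZMod m =>
      ext M0 E G D m (i, x) (j, y) = ext M0 E G D m (i', p.1) (j', p.2) ∧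
      ext M0 E G D m (i, x) (j', p.2) = ext M0 E G D m (i', p.1) (j, y)).card =
    (if plain M0 E G i j i' j' then 1 else 0) + (if flatc M0 E G D i j i' j' then m else 0) := by
  by_cases hQ : isQ M0 i j i' j'
  swap
  · have h1 : ¬ plain M0 E G i j i' j' := fun h => hQ h.1
    have h2 : ¬ flatc M0 E G D i j i' j' := fun h => hQ h.1
    rw [if_neg h1, if_neg h2, add_zero, Finset.card_eq_zero, Finset.filter_eq_empty_iff]
    rintro p - ⟨h3, h4⟩
    simp only [ext, Prod.mk.injEq] at h3 h4
    exact hQ ⟨h3.1, h4.1⟩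
  set e1 : ZMod m := (E i j : ZMod m) with he1
  set g1 : ZMod m := (G i j : ZMod m) with hg1
  set d1 : ZMod m := (D i j : ZMod m) with hd1
  set e2 : ZMod m := (E i' j' : ZMod m) with he2
  set g2 : ZMod m := (G i' j' : ZMod m) with hg2
  set d2 : ZMod m := (D i' j' : ZMod m) with hd2
  set e3 : ZMod m := (E i j' : ZMod m) with he3
  set g3 : ZMod m := (G i j' : ZMod m) with hg3
  set d3 : ZMod m := (D i j' : ZMod m) with hd3
  set e4 : ZMod m := (E i' j : ZMod m) with he4
  set g4 : ZMod m := (G i' j : ZMod m) with hg4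
  set d4 : ZMod m := (D i' j : ZMod m) with hd4
  have hcond : ∀ p : ZMod m × ZMod m,
      (ext M0 E G D m (i, x) (j, y) = ext M0 E G D m (i', p.1) (j', p.2) ∧
        ext M0 E G D m (i, x) (j', p.2) = ext M0 E G D m (i', p.1) (j, y)) ↔
      (e1 * x + g1 * y + d1 = e2 * p.1 + g2 * p.2 + d2 ∧
        e3 * x + g3 * p.2 + d3 = e4 * p.1 + g4 * y + d4) := by
    intro p
    simp only [ext, Prod.mk.injEq]
    constructor
    · rintro ⟨⟨_, h1⟩, ⟨_, h2⟩⟩; exact ⟨h1, h2⟩
    · rintro ⟨h1, h2⟩; exact ⟨⟨hQ.1, h1⟩, ⟨hQ.2, h2⟩⟩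
  simp only [hcond]
  have hflatplain : rank1 E G i j i' j' → ¬ plain M0 E G i j i' j' := by
    rintro ⟨h1, h2, h3⟩ ⟨_, h4⟩
    have hz : E i' j' * G i j' + G i' j' * E i' j = 0 := by
      rw [h2, show G i j' = -(E i j * E i j' * G i' j') by rw [← h3, neg_neg]]; ring
    rw [hz] at h4
    omega
  have ee1 := cast_sq hE m i j
  have gg2 := cast_sq hG m i' j'
  rcases hgood hQ with hp | hf | hf
  · have hnf : ¬ flatc M0 E G D i j i' j' := fun h => hflatplain h.2.1 hp
    rw [if_pos hp, if_neg hnf, add_zero]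
    obtain ⟨u, hu⟩ := two_unit hm
    have hd : ∃ v : ZMod m, v * (e2 * g3 + g2 * e4) = 1 := by
      rcases hp.2 with h | h
      · refine ⟨u, ?_⟩
        have hc : e2 * g3 + g2 * e4 = 2 := by
          rw [he2, hg3, hg2, he4]
          exact_mod_cast congrArg (Int.cast : ℤ → ZMod m) h
        rw [hc, hu]
      · refine ⟨-u, ?_⟩
        have hc : e2 * g3 + g2 * e4 = -2 := by
          rw [he2, hg3, hg2, he4]
          exact_mod_cast congrArg (Int.cast : ℤ → ZMod m) h
        rw [hc]; linear_combination hu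
    obtain ⟨v, hv⟩ := hd
    -- equations: e2 x' + g2 y' = a, e4 x' - g3 y' = b
    rw [Finset.card_eq_one]
    refine ⟨(v * (g3 * (e1 * x + g1 * y + d1 - d2) + g2 * (e3 * x + d3 - g4 * y - d4)),
      v * (e4 * (e1 * x + g1 * y + d1 - d2) - e2 * (e3 * x + d3 - g4 * y - d4))), ?_⟩
    ext ⟨x', y'⟩
    simp only [Finset.mem_filter, Finset.mem_univ, true_and, Finset.mem_singleton, Prod.mk.injEq]
    constructor
    · rintro ⟨h1, h2⟩
      constructor
      · linear_combination (-x') * hv + v * g3 * (-1) * h1 + v * g2 * (-1) * h2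
      · linear_combination (-y') * hv + v * e4 * (-1) * h1 + v * e2 * h2
    · rintro ⟨rfl, rfl⟩
      constructor
      · linear_combination (-(e1 * x + g1 * y + d1 - d2)) * hv
      · linear_combination (-(e3 * x + d3 - g4 * y - d4)) * hv
  · have hnp : ¬ plain M0 E G i j i' j' := hflatplain hf.2.1
    rw [if_neg hnp, if_pos hf, zero_add]
    obtain ⟨_, ⟨r1, r2, r3⟩, hv⟩ := hf
    have c1 : -g4 = e1 * e3 * g1 := by
      have := congrArg (Int.cast : ℤ → ZMod m) r1; push_cast at this; exact this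
    have c2 : e4 = e1 * e3 * e2 := by
      have := congrArg (Int.cast : ℤ → ZMod m) r2; push_cast at this; exact this
    have c3 : -g3 = e1 * e3 * g2 := by
      have := congrArg (Int.cast : ℤ → ZMod m) r3; push_cast at this; exact this
    have c4 : (d4 - d3) - e1 * e3 * (d2 - d1) = 0 := by
      have := congrArg (Int.cast : ℤ → ZMod m) hv; unfold vdef at this; push_cast at this
      exact this
    have hset : (Finset.univ.filter fun p : ZMod m × ZMod m =>
        (e1 * x + g1 * y + d1 = e2 * p.1 + g2 * p.2 + d2 ∧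
        e3 * x + g3 * p.2 + d3 = e4 * p.1 + g4 * y + d4)) =
        Finset.univ.image fun x' : ZMod m =>
          (x', g2 * (e1 * x + g1 * y + d1 - d2 - e2 * x')) := by
      ext ⟨x', y'⟩
      simp only [Finset.mem_filter, Finset.mem_univ, true_and, Finset.mem_image, Prod.mk.injEq]
      constructor
      · rintro ⟨h1, _⟩
        exact ⟨x', rfl, by linear_combination g2 * h1 + y' * gg2⟩
      · rintro ⟨x'', rfl, rfl⟩
        constructor
        · linear_combination (-(e1 * x + g1 * y + d1 - d2 - e2 * x'')) * gg2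
        · have k1 : g4 = -(e1 * e3 * g1) := by rw [← c1, neg_neg]
          have k3 : g3 = -(e1 * e3 * g2) := by rw [← c3, neg_neg]
          rw [c2, k1, k3]
          linear_combination (-(e1 * e3) * (e1 * x + g1 * y + d1 - d2 - e2 * x'')) * gg2
            + (-e3 * x) * ee1 - c4
    rw [hset, Finset.card_image_of_injective, Finset.card_univ, ZMod.card]
    intro a b hab
    simp only [Prod.mk.injEq] at hab
    exact hab.1
  · have hnp : ¬ plain M0 E G i j i' j' := hflatplain hf.2.1
    have hnf : ¬ flatc M0 E G D i j i' j' := by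
      rintro ⟨_, _, h0⟩
      have h1 := hf.2.2
      rw [h0] at h1
      omega
    rw [if_neg hnp, if_neg hnf, add_zero, Finset.card_eq_zero, Finset.filter_eq_empty_iff]
    obtain ⟨_, ⟨r1, r2, r3⟩, hv⟩ := hf
    have c1 : -g4 = e1 * e3 * g1 := by
      have := congrArg (Int.cast : ℤ → ZMod m) r1; push_cast at this; exact this
    have c2 : e4 = e1 * e3 * e2 := by
      have := congrArg (Int.cast : ℤ → ZMod m) r2; push_cast at this; exact this
    have c3 : -g3 = e1 * e3 * g2 := by
      have := congrArg (Int.cast : ℤ → ZMod m) r3; push_cast at this; exact this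
    have hne : ((vdef E D i j i' j' : ℤ) : ZMod m) ≠ 0 := by
      intro h0
      rw [ZMod.intCast_zmod_eq_zero_iff_dvd] at h0
      have := Int.le_of_dvd (a := (m : ℤ)) (b := |vdef E D i j i' j'|)
        (by rcases hv with h | h | h | h <;> rw [h] <;> norm_num) ((dvd_abs _ _).2 h0)
      have h3 : |vdef E D i j i' j'| ≤ 2 := by
        rcases hv with h | h | h | h <;> rw [h] <;> norm_num
      omega
    rintro ⟨x', y'⟩ - ⟨h1, h2⟩
    apply hne
    have k1 : g4 = -(e1 * e3 * g1) := by rw [← c1, neg_neg]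
    have k3 : g3 = -(e1 * e3 * g2) := by rw [← c3, neg_neg]
    rw [c2, k1, k3] at h2
    unfold vdef
    push_cast
    rw [← hd4, ← hd3, ← he1, ← he3, ← hd2, ← hd1]
    simp only at h1 h2
    linear_combination (-(e1 * e3)) * h1 * (-1) - h2 + (-e3 * x) * ee1

theorem F_ext [NeZero m] (hm : Odd m) (hm3 : 3 ≤ m) (hE : signs E) (hG : signs G)
    (hgood : ∀ i j i' j', isQ M0 i j i' j' → plain M0 E G i j i' j' ∨ flatc M0 E G D i j i' j' ∨
      flati M0 E G D i j i' j')
    (P C : ℕ)
    (hP : ∀ i j, (Finset.univ.filter fun p : Fin n × Fin n => plain M0 E G i j p.1 p.2).card = P)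
    (hC : ∀ i j, (Finset.univ.filter fun p : Fin n × Fin n => flatc M0 E G D i j p.1 p.2).card = C)
    (r c : Fin n × ZMod m) : F (ext M0 E G D m) r c = P + C * m := by
  obtain ⟨i, x⟩ := r
  obtain ⟨j, y⟩ := c
  have h1 : F (ext M0 E G D m) (i, x) (j, y) = ∑ q : Fin n × Fin n,
      (Finset.univ.filter fun p : ZMod m × ZMod m =>
      ext M0 E G D m (i, x) (j, y) = ext M0 E G D m (q.1, p.1) (q.2, p.2) ∧
      ext M0 E G D m (i, x) (q.2, p.2) = ext M0 E G D m (q.1, p.1) (j, y)).card := by
    unfold F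
    simp only [Finset.card_filter, Fintype.sum_prod_type]
    refine Finset.sum_congr rfl fun i' _ => ?_
    rw [Finset.sum_comm]
  rw [h1]
  have h2 : ∀ q : Fin n × Fin n,
      (Finset.univ.filter fun p : ZMod m × ZMod m =>
      ext M0 E G D m (i, x) (j, y) = ext M0 E G D m (q.1, p.1) (q.2, p.2) ∧
      ext M0 E G D m (i, x) (q.2, p.2) = ext M0 E G D m (q.1, p.1) (j, y)).card =
      (if plain M0 E G i j q.1 q.2 then 1 else 0) +
        (if flatc M0 E G D i j q.1 q.2 then m else 0) := fun q =>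
    inner_count hm hm3 hE hG i j q.1 q.2 (hgood i j q.1 q.2) x y
  simp only [h2]
  rw [Finset.sum_add_distrib, ← Finset.card_filter, hP, ← Finset.sum_filter, Finset.sum_const,
    hC, smul_eq_mul]

end Extension

end Pool.Agent.V11174.HomExt
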