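import Pool.Agent.V11174.BroomC

set_option autoImplicit false
set_option linter.unusedSectionVars false

namespace V11174.Broom

open Finset

variable {V : Type} [Fintype V] [DecidableEq V]

theorem geo (G : SimpleGraph V) (hG : G.Connected) (v y : V) (s : ℕ) (hs : s ≤ G.dist v y) :
    ∃ f : ℕ → V, f 0 = v ∧ (∀ i, i < s → G.Adj (f i) (f (i + 1))) ∧ ∀ i ≤ s, G.dist v (f i) = i := by
  obtain ⟨p, hp⟩ := hG.exists_walk_length_eq_dist v y
  refine ⟨fun i => p.getVert i, p.getVert_zero, ?_, ?_⟩
  · intro i hi
    exact p.adj_getVert_succ (by omega)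
  · intro i hi
    have h1 : G.dist v (p.getVert i) ≤ i := by
      have := SimpleGraph.dist_le (p.take i)
      rw [SimpleGraph.Walk.take_length] at this
      omega
    have h2 : G.dist (p.getVert i) y ≤ p.length - i := by
      have := SimpleGraph.dist_le (p.drop i)
      rw [SimpleGraph.Walk.drop_length] at this
      exact this
    have h3 : G.dist v y ≤ G.dist v (p.getVert i) + G.dist (p.getVert i) y :=
      hG.dist_triangle
    show G.dist v (p.getVert i) = i
    omega

theorem ball_card (G : SimpleGraph V) [DecidableRel G.Adj] (hG : G.Connected) (v : V) (D : ℕ)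
    (hD : ∀ x, G.degree x ≤ D) : ∀ k, (univ.filter (fun y => G.dist v y ≤ k)).card ≤ (D + 1) ^ k := by
  intro k
  induction k with
  | zero =>
    have : univ.filter (fun y => G.dist v y ≤ 0) ⊆ {v} := by
      intro y hy
      rw [mem_filter] at hy
      have h0 : G.dist v y = 0 := by omega
      rw [mem_singleton]
      exact ((hG.dist_eq_zero_iff).1 h0).symm
    simpa using card_le_card this
  | succ k ih =>
    have hsub : univ.filter (fun y => G.dist v y ≤ k + 1) ⊆
        (univ.filter (fun y => G.dist v y ≤ k)).biUnion (fun z => insert z (G.neighborFinset z)) := by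
      intro y hy
      rw [mem_filter] at hy
      rw [mem_biUnion]
      by_cases h : G.dist v y ≤ k
      · exact ⟨y, mem_filter.2 ⟨mem_univ _, h⟩, mem_insert_self _ _⟩
      · obtain ⟨p, hp⟩ := hG.exists_walk_length_eq_dist v y
        have hlen : p.length = k + 1 := by omega
        refine ⟨p.getVert k, mem_filter.2 ⟨mem_univ _, ?_⟩, mem_insert_of_mem ?_⟩
        · have := SimpleGraph.dist_le (p.take k)
          rw [SimpleGraph.Walk.take_length] at this
          omega
        · rw [SimpleGraph.mem_neighborFinset]
          have := p.adj_getVert_succ (i := k) (by omega)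
          rwa [← hlen, p.getVert_length] at this
    refine (card_le_card hsub).trans (card_biUnion_le.trans ?_)
    calc _ ≤ ∑ _z ∈ univ.filter (fun y => G.dist v y ≤ k), (D + 1) := by
          apply sum_le_sum
          intro z _
          refine (card_insert_le _ _).trans ?_
          rw [SimpleGraph.card_neighborFinset_eq_degree]
          have := hD z
          omega
      _ ≤ (D + 1) ^ k * (D + 1) := by
          rw [sum_const, smul_eq_mul]
          exact Nat.mul_le_mul_right _ ih
      _ = (D + 1) ^ (k + 1) := by rw [pow_succ]

theorem main_bound (G : SimpleGraph V) [DecidableRel G.Adj] (hG : G.Connected) (c : V → Bool)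
    (hc : ∀ a b, G.Adj a b → c a ≠ c b) (s : ℕ) (hs : 1 ≤ s)
    (hV : (2 * s + 1) ^ s < Fintype.card V)
    (hfree : ¬ ∃ g : Fin (2 * s + 1) → V, Function.Injective g ∧
      ∀ a b, (broom s).Adj a b → G.Adj (g a) (g b)) :
    2 * G.edgeFinset.card ≤ s * Fintype.card V := by
  by_cases hdeg : ∀ v, G.degree v ≤ s
  · rw [← G.sum_degrees_eq_twice_card_edges]
    refine (sum_le_sum fun v _ => hdeg v).trans ?_
    rw [sum_const, smul_eq_mul, card_univ, mul_comm]
  push Not at hdeg
  obtain ⟨v, hv⟩ := hdeg
  have hdist : ∀ y, G.dist v y < s := by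
    intro y
    by_contra hcon
    push Not at hcon
    obtain ⟨f, f0, fadj, fdist⟩ := geo G hG v y s hcon
    apply hfree
    apply embed G s v f f0 fadj
      (fun i j hi hj hij => by rw [← fdist i hi, ← fdist j hj, hij])
      ((G.neighborFinset v).erase (f 1))
    · have := Finset.pred_card_le_card_erase (s := G.neighborFinset v) (a := f 1)
      rw [SimpleGraph.card_neighborFinset_eq_degree] at this
      omega
    · intro x hx
      rw [mem_erase, SimpleGraph.mem_neighborFinset] at hx
      exact hx.2
    · intro x hx i hi hfx
      rw [mem_erase, SimpleGraph.mem_neighborFinset] at hx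
      have h1 : G.dist v x = 1 := SimpleGraph.dist_eq_one_iff_adj.2 hx.2
      have h2 := fdist i hi
      rw [hfx, h1] at h2
      apply hx.1
      rw [h2, hfx]
  have hbig : ∃ u, 2 * s < G.degree u := by
    by_contra hcon
    push Not at hcon
    have h1 := ball_card G hG v (2 * s) hcon s
    have h2 : univ.filter (fun y => G.dist v y ≤ s) = (univ : Finset V) := by
      ext y
      simp [(hdist y).le]
    rw [h2, card_univ] at h1
    omega
  obtain ⟨u, hu⟩ := hbig
  apply edges_le G hG c hc u s
  intro l hl
  by_contra hcon
  push Not at hcon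
  obtain ⟨f, f0, fadj, finj, -, -⟩ := hl.func
  apply hfree
  apply embed G s u f f0 (fun i hi => fadj i (by omega))
    (fun i j hi hj hij => finj i j (by omega) (by omega) hij)
    (G.neighborFinset u \ (range (s + 1)).image f)
  · have h1 := Finset.le_card_sdiff ((range (s + 1)).image f) (G.neighborFinset u)
    have h2 : ((range (s + 1)).image f).card ≤ s + 1 := card_image_le.trans (by rw [card_range])
    rw [SimpleGraph.card_neighborFinset_eq_degree] at h1
    omega
  · intro x hx
    rw [mem_sdiff, SimpleGraph.mem_neighborFinset] at hx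
    exact hx.1
  · intro x hx i hi hfx
    rw [mem_sdiff] at hx
    exact hx.2 (mem_image.2 ⟨i, mem_range.2 (by omega), hfx⟩)

end V11174.Broom
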