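import Pool.Agent.V11174.BroomC

set_option autoImplicit false
set_option linter.unusedSectionVars false

namespace V11174.Broom

open Finset

/-- the index of a vertex of `K_{n,n}` in its class -/
def val {n : ℕ} : Fin n ⊕ Fin n → ℕ := Sum.elim (fun i => i.1) (fun i => i.1)

/-- disjoint copies of `K_{m,m}` -/
def blocks (n m : ℕ) : SimpleGraph (Fin n ⊕ Fin n) where
  Adj x y := x.isLeft ≠ y.isLeft ∧ val x / m = val y / m
  symm := ⟨fun _ _ h => ⟨h.1.symm, h.2.symm⟩⟩
  loopless := ⟨fun _ h => h.1 rfl⟩

theorem blocks_le (n m : ℕ) : blocks n m ≤ completeBipartiteGraph (Fin n) (Fin n) := by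
  intro a b hab
  have := hab.1
  rcases a with a | a <;> rcases b with b | b <;> simp_all [completeBipartiteGraph]

theorem blocks_edges (n m : ℕ) (hm : 0 < m) : n / m * (m * m) ≤ (blocks n m).edgeSet.ncard := by
  classical
  have hb : ∀ (b : Fin (n / m)) (i : Fin m), b.1 * m + i.1 < n := by
    intro b i
    have h1 := b.2
    have h2 := i.2
    have h3 : (b.1 + 1) * m ≤ n / m * m := Nat.mul_le_mul_right m h1
    have h4 := Nat.div_mul_le_self n m
    have h5 : (b.1 + 1) * m = b.1 * m + m := by ring
    omega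
  let φ : Fin (n / m) × Fin m × Fin m → Sym2 (Fin n ⊕ Fin n) := fun q =>
    s(Sum.inl ⟨q.1.1 * m + q.2.1.1, hb _ _⟩, Sum.inr ⟨q.1.1 * m + q.2.2.1, hb _ _⟩)
  have hdiv : ∀ (b : Fin (n / m)) (i : Fin m), (b.1 * m + i.1) / m = b.1 := by
    intro b i
    rw [mul_comm, Nat.mul_add_div hm, Nat.div_eq_of_lt i.2, add_zero]
  have hφ : Function.Injective φ := by
    rintro ⟨b, i, j⟩ ⟨b', i', j'⟩ h
    simp only [φ, Sym2.eq_iff, Sum.inl.injEq, Sum.inr.injEq, Fin.mk.injEq, reduceCtorEq,
      false_and, or_false] at h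
    obtain ⟨h1, h2⟩ := h
    have h3 : b.1 = b'.1 := by rw [← hdiv b i, ← hdiv b' i', h1]
    have h4 : i.1 = i'.1 := by rw [h3] at h1; omega
    have h5 : j.1 = j'.1 := by rw [h3] at h2; omega
    rw [Fin.ext h3, Fin.ext h4, Fin.ext h5]
  have hsub : ((univ.image φ : Finset (Sym2 (Fin n ⊕ Fin n))) : Set _) ⊆ (blocks n m).edgeSet := by
    intro e he
    rw [mem_coe, mem_image] at he
    obtain ⟨⟨b, i, j⟩, -, rfl⟩ := he
    rw [SimpleGraph.mem_edgeSet]
    refine ⟨by simp, ?_⟩
    simp only [val, Sum.elim_inl, Sum.elim_inr]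
    rw [hdiv, hdiv]
  have h := Set.ncard_le_ncard hsub (Set.toFinite _)
  rw [Set.ncard_coe_finset, card_image_of_injective _ hφ] at h
  simpa [card_univ, Fintype.card_prod, Fintype.card_fin] using h

theorem blocks_free (n r : ℕ) (hr : 1 ≤ r) :
    ¬ ∃ f : Fin (2 * (2 * r) + 1) → Fin n ⊕ Fin n, Function.Injective f ∧
      ∀ a b, (broom (2 * r)).Adj a b → (blocks n (3 * r - 1)).Adj (f a) (f b) := by
  rintro ⟨f, finj, fadj⟩
  set m := 3 * r - 1 with hm
  let F : ℕ → Fin n ⊕ Fin n := fun i => f ⟨min i (2 * (2 * r)), by omega⟩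
  have hF : ∀ i, 0 < i → i ≤ 2 * (2 * r) →
      (F i).isLeft ≠ (F (par (2 * r) i)).isLeft ∧ val (F i) / m = val (F (par (2 * r) i)) / m := by
    intro i hi hi2
    have hp := par_lt (s := 2 * r) hi
    apply fadj
    left
    refine ⟨by simp only; omega, ?_⟩
    simp only
    rw [min_eq_left hi2, min_eq_left (by omega)]
  have hFinj : ∀ i j, i ≤ 2 * (2 * r) → j ≤ 2 * (2 * r) → F i = F j → i = j := by
    intro i j hi hj h
    have := congrArg Fin.val (finj h)
    simp only at this
    omega
  have hblk : ∀ i, i ≤ 2 * (2 * r) → val (F i) / m = val (F 0) / m := by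
    intro i
    induction i using Nat.strong_induction_on with
    | _ i ih =>
      intro hi
      rcases Nat.eq_zero_or_pos i with h | h
      · rw [h]
      · rw [(hF i h hi).2]
        exact ih _ (par_lt h) ((par_lt h).le.trans hi)
  have hcol : ∀ j, 2 * j ≤ 2 * r → (F (2 * j)).isLeft = (F 0).isLeft := by
    intro j
    induction j with
    | zero => intro _; rfl
    | succ j ih =>
      intro hj
      have h1 := (hF (2 * (j + 1)) (by omega) (by omega)).1
      have h2 := (hF (2 * j + 1) (by omega) (by omega)).1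
      have e1 : par (2 * r) (2 * (j + 1)) = 2 * j + 1 := by unfold par; rw [if_pos hj]; omega
      have e2 : par (2 * r) (2 * j + 1) = 2 * j := by unfold par; rw [if_pos (by omega)]; omega
      rw [e1] at h1
      rw [e2, ih (by omega)] at h2
      revert h1 h2
      cases (F (2 * (j + 1))).isLeft <;> cases (F (2 * j + 1)).isLeft <;> cases (F 0).isLeft <;> simp
  let h : ℕ → ℕ := fun j => if j < r then 2 * j + 1 else r + 1 + j
  have hle : ∀ j, j < 3 * r → h j ≤ 2 * (2 * r) := by
    intro j hj
    simp only [h]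
    split_ifs <;> omega
  have hside : ∀ j, j < 3 * r → (F (h j)).isLeft ≠ (F 0).isLeft := by
    intro j hj
    simp only [h]
    split_ifs with hc
    · have h2 := (hF (2 * j + 1) (by omega) (by omega)).1
      have e2 : par (2 * r) (2 * j + 1) = 2 * j := by unfold par; rw [if_pos (by omega)]; omega
      rwa [e2, hcol j (by omega)] at h2
    · have h2 := (hF (r + 1 + j) (by omega) (by omega)).1
      have e2 : par (2 * r) (r + 1 + j) = 0 := by unfold par; rw [if_neg (by omega)]
      rwa [e2] at h2
  have hm0 : 0 < m := by omega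
  obtain ⟨i, hi, j, hj, hne, heq⟩ := exists_ne_map_eq_of_card_lt_of_maps_to
    (s := range (3 * r)) (t := range m) (f := fun j => val (F (h j)) % m)
    (by rw [card_range, card_range]; omega)
    (fun j _ => by simpa using Nat.mod_lt _ hm0)
  rw [mem_range] at hi hj
  have hv : val (F (h i)) = val (F (h j)) := by
    rw [← Nat.div_add_mod (val (F (h i))) m, ← Nat.div_add_mod (val (F (h j))) m, heq,
      hblk _ (hle i hi), hblk _ (hle j hj)]
  have hs : (F (h i)).isLeft = (F (h j)).isLeft := by
    have h1 := hside i hi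
    have h2 := hside j hj
    revert h1 h2
    cases (F (h i)).isLeft <;> cases (F (h j)).isLeft <;> cases (F 0).isLeft <;> simp
  have hFF : F (h i) = F (h j) := by
    revert hv hs
    generalize F (h i) = x
    generalize F (h j) = y
    intro hv hs
    rcases x with x | x <;> rcases y with y | y
    · simp only [val, Sum.elim_inl] at hv; rw [Fin.ext hv]
    · simp at hs
    · simp at hs
    · simp only [val, Sum.elim_inr] at hv; rw [Fin.ext hv]
  have h1 := hFinj _ _ (hle i hi) (hle j hj) hFF
  apply hne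
  simp only [h] at h1
  split_ifs at h1 <;> omega

end V11174.Broom
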