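import Mathlib

set_option autoImplicit false

/-! # M. Hall's lower bound for the number of systems of distinct representatives, and the
resulting lower bound `∏ k!` for the number of Latin squares. -/

namespace V11174.HallCount

open Finset

/-- The systems of distinct representatives of the family `t`. -/
abbrev SDR {ι α : Type} (t : ι → Finset α) : Type :=
  {f : ι → α // Function.Injective f ∧ ∀ i, f i ∈ t i}

lemma sdr_finite {ι α : Type} [Finite ι] [Finite α] (t : ι → Finset α) : Finite (SDR t) :=
  inferInstance

theorem hall_count (n : ℕ) : ∀ (ι α : Type) [Fintype ι] [Fintype α] (t : ι → Finset α) (d : ℕ),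
    Fintype.card ι = n → d ≤ n → (∀ i, d ≤ (t i).card) →
    (∀ s : Finset ι, ∀ u : Finset α, (∀ i ∈ s, t i ⊆ u) → s.card ≤ u.card) →
    d.factorial ≤ Nat.card (SDR t) := by
  classical
  induction n using Nat.strong_induction_on with
  | _ n ih =>
  intro ι α _ _ t d hn hdn hd hH
  have hH' : ∀ s : Finset ι, s.card ≤ (s.biUnion t).card :=
    fun s => hH s _ (fun i hi => Finset.subset_biUnion_of_mem t hi)
  rcases Nat.eq_zero_or_pos d with rfl | hdpos
  · obtain ⟨f, hf1, hf2⟩ := (Finset.all_card_le_biUnion_card_iff_exists_injective t).mp hH'
    have : Nonempty (SDR t) := ⟨⟨f, hf1, hf2⟩⟩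
    exact Nat.card_pos
  by_cases hcrit : ∃ s : Finset ι, s.Nonempty ∧ s ≠ Finset.univ ∧ (s.biUnion t).card ≤ s.card
  · -- a critical set
    obtain ⟨s, hs, hsu, hc⟩ := hcrit
    have hslt : s.card < n := by
      rw [← hn, ← Finset.card_univ]
      exact Finset.card_lt_card (Finset.ssubset_univ_iff.mpr hsu)
    have hds : d ≤ s.card := by
      obtain ⟨i, hi⟩ := hs
      exact (hd i).trans ((Finset.card_le_card (Finset.subset_biUnion_of_mem t hi)).trans hc)
    -- the part in s
    have h1 : d.factorial ≤ Nat.card (SDR (fun i : {i // i ∈ s} => t i)) := by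
      apply ih s.card hslt {i // i ∈ s} α (fun i => t i) d (by simp) hds (fun i => hd i)
      intro s' u hu
      have := hH (s'.map (Function.Embedding.subtype _)) u (by
        intro i hi
        rw [Finset.mem_map] at hi
        obtain ⟨j, hj, rfl⟩ := hi
        exact hu j hj)
      rwa [Finset.card_map] at this
    -- the part outside s
    have h2 : ∃ g : {i // i ∉ s} → α, Function.Injective g ∧
        ∀ i : {i // i ∉ s}, g i ∈ t i \ s.biUnion t := by
      apply (Finset.all_card_le_biUnion_card_iff_exists_injective
        (fun i : {i // i ∉ s} => t i \ s.biUnion t)).mp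
      intro s'
      have h3 := hH (s ∪ s'.map (Function.Embedding.subtype _))
        (s.biUnion t ∪ s'.biUnion (fun i : {i // i ∉ s} => t i \ s.biUnion t)) (by
          intro i hi x hx
          by_cases hxs : x ∈ s.biUnion t
          · exact Finset.mem_union_left _ hxs
          · rcases Finset.mem_union.mp hi with hi | hi
            · exact absurd (Finset.mem_biUnion.mpr ⟨i, hi, hx⟩) hxs
            · rw [Finset.mem_map] at hi
              obtain ⟨j, hj, rfl⟩ := hi
              exact Finset.mem_union_right _ (Finset.mem_biUnion.mpr
                ⟨j, hj, Finset.mem_sdiff.mpr ⟨hx, hxs⟩⟩))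
      rw [Finset.card_union_of_disjoint (by
        rw [Finset.disjoint_left]
        intro i hi hi'
        rw [Finset.mem_map] at hi'
        obtain ⟨j, hj, rfl⟩ := hi'
        exact j.2 hi), Finset.card_map] at h3
      have h4 := Finset.card_union_le (s.biUnion t)
        (s'.biUnion (fun i : {i // i ∉ s} => t i \ s.biUnion t))
      omega
    obtain ⟨g, hg1, hg2⟩ := h2
    have h5 : Nat.card (SDR (fun i : {i // i ∈ s} => t i)) ≤ Nat.card (SDR t) := by
      refine Nat.card_le_card_of_injective
        (fun f => ⟨fun i => if h : i ∈ s then f.1 ⟨i, h⟩ else g ⟨i, h⟩, ?_, ?_⟩) ?_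
      · intro i j hij
        simp only at hij
        by_cases hi : i ∈ s <;> by_cases hj : j ∈ s
        · rw [dif_pos hi, dif_pos hj] at hij
          exact congrArg Subtype.val (f.2.1 hij)
        · rw [dif_pos hi, dif_neg hj] at hij
          exfalso
          apply (Finset.mem_sdiff.mp (hg2 ⟨j, hj⟩)).2
          rw [← hij]
          exact Finset.mem_biUnion.mpr ⟨i, hi, f.2.2 ⟨i, hi⟩⟩
        · rw [dif_neg hi, dif_pos hj] at hij
          exfalso
          apply (Finset.mem_sdiff.mp (hg2 ⟨i, hi⟩)).2
          rw [hij]
          exact Finset.mem_biUnion.mpr ⟨j, hj, f.2.2 ⟨j, hj⟩⟩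
        · rw [dif_neg hi, dif_neg hj] at hij
          exact congrArg Subtype.val (hg1 hij)
      · intro i
        simp only
        by_cases hi : i ∈ s
        · rw [dif_pos hi]; exact f.2.2 ⟨i, hi⟩
        · rw [dif_neg hi]; exact (Finset.mem_sdiff.mp (hg2 ⟨i, hi⟩)).1
      · intro f f' hff
        apply Subtype.ext
        funext i
        have := congrFun (congrArg Subtype.val hff) i.1
        simp only [dif_pos i.2] at this
        exact this
    exact h1.trans h5
  · -- no critical set
    push Not at hcrit
    have hnpos : 0 < n := by omega
    have : Nonempty ι := Fintype.card_pos_iff.mp (by omega)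
    obtain ⟨i0⟩ := (inferInstance : Nonempty ι)
    have hcard : Fintype.card {i : ι // i ≠ i0} = n - 1 := by
      rw [Fintype.card_subtype_compl, Fintype.card_subtype_eq, hn]
    have key : ∀ x ∈ t i0, (d - 1).factorial ≤
        Nat.card (SDR (fun i : {i : ι // i ≠ i0} => (t i).erase x)) := by
      intro x hx
      apply ih (n - 1) (by omega) _ _ _ (d - 1) hcard (by omega)
      · intro i
        have := Finset.pred_card_le_card_erase (s := t i) (a := x)
        have := hd i
        omega
      · intro s u hu
        rcases s.eq_empty_or_nonempty with rfl | hs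
        · simp
        · have h1 := hcrit (s.map (Function.Embedding.subtype _)) (by simpa using hs) (by
            intro h
            have : i0 ∈ s.map (Function.Embedding.subtype _) := by rw [h]; simp
            rw [Finset.mem_map] at this
            obtain ⟨j, _, hj⟩ := this
            exact j.2 hj)
          rw [Finset.card_map] at h1
          have h2 : ((s.map (Function.Embedding.subtype _)).biUnion t).card ≤
              (insert x u).card := by
            apply Finset.card_le_card
            intro y hy
            rw [Finset.mem_biUnion] at hy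
            obtain ⟨i, hi, hyi⟩ := hy
            rw [Finset.mem_map] at hi
            obtain ⟨j, hj, rfl⟩ := hi
            by_cases hyx : y = x
            · subst hyx; exact Finset.mem_insert_self _ _
            · exact Finset.mem_insert_of_mem (hu j hj (Finset.mem_erase.mpr ⟨hyx, hyi⟩))
          have h3 := Finset.card_insert_le x u
          omega
    have hle : Nat.card (Σ x : {x // x ∈ t i0},
        SDR (fun i : {i : ι // i ≠ i0} => (t i).erase x.1)) ≤ Nat.card (SDR t) := by
      refine Nat.card_le_card_of_injective
        (fun p => ⟨fun i => if h : i = i0 then p.1.1 else p.2.1 ⟨i, h⟩, ?_, ?_⟩) ?_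
      · intro i j hij
        simp only at hij
        by_cases hi : i = i0 <;> by_cases hj : j = i0
        · rw [hi, hj]
        · rw [dif_pos hi, dif_neg hj] at hij
          exact absurd hij.symm (Finset.mem_erase.mp (p.2.2.2 ⟨j, hj⟩)).1
        · rw [dif_neg hi, dif_pos hj] at hij
          exact absurd hij (Finset.mem_erase.mp (p.2.2.2 ⟨i, hi⟩)).1
        · rw [dif_neg hi, dif_neg hj] at hij
          exact congrArg Subtype.val (p.2.2.1 hij)
      · intro i
        simp only
        by_cases hi : i = i0
        · rw [dif_pos hi, hi]; exact p.1.2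
        · rw [dif_neg hi]; exact (Finset.mem_erase.mp (p.2.2.2 ⟨i, hi⟩)).2
      · rintro ⟨⟨x, hx⟩, g, hg⟩ ⟨⟨y, hy⟩, g', hg'⟩ hpq
        have e0 := congrFun (congrArg Subtype.val hpq) i0
        simp only [dif_pos] at e0
        subst e0
        have e1 : g = g' := by
          funext i
          have := congrFun (congrArg Subtype.val hpq) i.1
          simp only [dif_neg i.2] at this
          exact this
        subst e1
        rfl
    refine le_trans ?_ hle
    rw [Nat.card_sigma]
    calc d.factorial = d * (d - 1).factorial := by
          rw [Nat.mul_factorial_pred (by omega)]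
      _ ≤ (t i0).card * (d - 1).factorial := Nat.mul_le_mul_right _ (hd i0)
      _ = ∑ _x : {x // x ∈ t i0}, (d - 1).factorial := by
          rw [Finset.sum_const, Finset.card_univ, Fintype.card_coe, smul_eq_mul]
      _ ≤ _ := Finset.sum_le_sum (fun x _ => key x.1 x.2)


/-- `k × n` Latin rectangles on `n` symbols. -/
abbrev Rect (k n : ℕ) : Type :=
  {A : Fin k → Fin n → Fin n // (∀ i, Function.Injective (A i)) ∧
    ∀ j, Function.Injective (fun i => A i j)}

lemma rect_succ (k n : ℕ) (hk : k < n) :
    (n - k).factorial * Nat.card (Rect k n) ≤ Nat.card (Rect (k + 1) n) := by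
  classical
  -- extension systems
  let t : Rect k n → Fin n → Finset (Fin n) := fun A j =>
    Finset.univ \ Finset.univ.image (fun i => A.1 i j)
  have hle : Nat.card (Σ A : Rect k n, SDR (t A)) ≤ Nat.card (Rect (k + 1) n) := by
    refine Nat.card_le_card_of_injective
      (fun p => ⟨Fin.cons p.2.1 p.1.1, ?_, ?_⟩) ?_
    · intro i
      refine Fin.cases ?_ (fun i => ?_) i
      · rw [Fin.cons_zero]; exact p.2.2.1
      · rw [Fin.cons_succ]; exact p.1.2.1 i
    · intro j
      have hnot : ∀ i, p.1.1 i j ≠ p.2.1 j := by
        intro i hi
        have := (Finset.mem_sdiff.mp (p.2.2.2 j)).2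
        exact this (Finset.mem_image.mpr ⟨i, Finset.mem_univ _, hi⟩)
      intro a b
      refine Fin.cases ?_ (fun a => ?_) a <;> refine Fin.cases ?_ (fun b => ?_) b
      · intro _; rfl
      · intro h
        simp only [Fin.cons_zero, Fin.cons_succ] at h
        exact absurd h.symm (hnot b)
      · intro h
        simp only [Fin.cons_zero, Fin.cons_succ] at h
        exact absurd h (hnot a)
      · intro h
        simp only [Fin.cons_succ] at h
        rw [p.1.2.2 j h]
    · rintro ⟨A, g⟩ ⟨A', g'⟩ h
      have h0 := congrArg Subtype.val h
      simp only at h0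
      obtain ⟨h1, h2⟩ := Fin.cons_injective2 h0
      have hA : A = A' := Subtype.ext h2
      subst hA
      have hg : g = g' := Subtype.ext h1
      rw [hg]
  refine le_trans ?_ hle
  have key : ∀ A : Rect k n, (n - k).factorial ≤ Nat.card (SDR (t A)) := by
    intro A
    have hcardt : ∀ j, (t A j).card = n - k := by
      intro j
      rw [Finset.card_sdiff_of_subset (Finset.subset_univ _),
        Finset.card_image_of_injective _ (A.2.2 j)]
      simp
    apply hall_count n (Fin n) (Fin n) (t A) (n - k) (by simp) (Nat.sub_le _ _)
      (fun j => (hcardt j).ge)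
    intro s u hu
    -- double counting
    have hdc := Finset.card_mul_le_card_mul (s := s) (t := u) (fun j x => x ∈ t A j)
      (m := n - k) (n := n - k) (by
        intro j hj
        rw [← hcardt j]
        apply Finset.card_le_card
        intro x hx
        exact (Finset.mem_bipartiteAbove _).mpr ⟨hu j hj hx, hx⟩) (by
        intro x _
        -- columns not containing x
        have hinj : Function.Injective (fun i => (Equiv.ofBijective (A.1 i)
            (Finite.injective_iff_bijective.mp (A.2.1 i))).symm x) := by
          intro i i' h
          simp only at h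
          have e1 : A.1 i ((Equiv.ofBijective (A.1 i)
              (Finite.injective_iff_bijective.mp (A.2.1 i))).symm x) = x :=
            (Equiv.ofBijective (A.1 i) _).apply_symm_apply x
          have e2 : A.1 i' ((Equiv.ofBijective (A.1 i')
              (Finite.injective_iff_bijective.mp (A.2.1 i'))).symm x) = x :=
            (Equiv.ofBijective (A.1 i') _).apply_symm_apply x
          rw [h] at e1
          exact A.2.2 _ (e1.trans e2.symm)
        have hsub : s.bipartiteBelow (fun j x => x ∈ t A j) x ⊆
            Finset.univ \ Finset.univ.image (fun i => (Equiv.ofBijective (A.1 i)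
              (Finite.injective_iff_bijective.mp (A.2.1 i))).symm x) := by
          intro j hj
          have h1 := ((Finset.mem_bipartiteBelow _).mp hj).2
          rw [Finset.mem_sdiff]
          refine ⟨Finset.mem_univ _, ?_⟩
          intro hj'
          obtain ⟨i, _, hi⟩ := Finset.mem_image.mp hj'
          apply (Finset.mem_sdiff.mp h1).2
          refine Finset.mem_image.mpr ⟨i, Finset.mem_univ _, ?_⟩
          rw [← hi]
          exact (Equiv.ofBijective (A.1 i) _).apply_symm_apply x
        refine (Finset.card_le_card hsub).trans ?_
        rw [Finset.card_sdiff_of_subset (Finset.subset_univ _),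
          Finset.card_image_of_injective _ hinj]
        simp)
    exact Nat.le_of_mul_le_mul_right hdc (by omega)
  rw [Nat.card_sigma]
  calc (n - k).factorial * Nat.card (Rect k n) = ∑ _A : Rect k n, (n - k).factorial := by
        rw [Finset.sum_const, Finset.card_univ, smul_eq_mul, mul_comm, Nat.card_eq_fintype_card]
    _ ≤ _ := Finset.sum_le_sum (fun A _ => key A)

/-- The number of `k × n` Latin rectangles is at least `n! (n-1)! ⋯ (n-k+1)!`. -/
theorem rect_lower (k n : ℕ) (hk : k ≤ n) :
    ∏ i ∈ Finset.range k, (n - i).factorial ≤ Nat.card (Rect k n) := by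
  induction k with
  | zero =>
    have : Nonempty (Rect 0 n) := ⟨⟨fun i => i.elim0, fun i => i.elim0, fun _ i => i.elim0⟩⟩
    rw [Finset.prod_range_zero]
    exact Nat.card_pos
  | succ k ih =>
    rw [Finset.prod_range_succ, mul_comm]
    exact (Nat.mul_le_mul_left _ (ih (by omega))).trans (rect_succ k n (by omega))

/-- The number of Latin squares of order `n` is at least `1! 2! ⋯ n!`. -/
theorem latin_lower (n : ℕ) :
    ∏ i ∈ Finset.range n, (i + 1).factorial ≤ Nat.card (Rect n n) := by
  refine le_trans (le_of_eq ?_) (rect_lower n n le_rfl)
  rw [← Finset.prod_range_reflect]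
  apply Finset.prod_congr rfl
  intro i hi
  rw [Finset.mem_range] at hi
  congr 1
  omega

end V11174.HallCount
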