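import Mathlib

set_option autoImplicit false
set_option linter.unusedSectionVars false

namespace V11174.Broom

open Finset

variable {V : Type} [Fintype V] [DecidableEq V]

/-- `l` is a path in `S`, listed from its last vertex back to its first vertex `u` -/
inductive PT (G : SimpleGraph V) (u : V) (S : Finset V) : List V → Prop
  | base : PT G u S [u]
  | step {a b : V} {l : List V} : PT G u S (a :: l) → G.Adj b a → b ∈ S → b ∉ (a :: l) →
      PT G u S (b :: a :: l)

theorem PT.nodup {G : SimpleGraph V} {u : V} {S : Finset V} {l : List V} (h : PT G u S l) :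
    l.Nodup := by
  induction h with
  | base => simp
  | step _ _ _ h4 ih => exact List.nodup_cons.2 ⟨h4, ih⟩

theorem PT.sub {G : SimpleGraph V} {u : V} {S : Finset V} (hu : u ∈ S) {l : List V}
    (h : PT G u S l) : ∀ x ∈ l, x ∈ S := by
  induction h with
  | base => simpa using hu
  | step _ _ h3 _ ih =>
    intro x hx
    rcases List.mem_cons.1 hx with rfl | hx
    · exact h3
    · exact ih x hx

theorem PT.mono {G : SimpleGraph V} {u : V} {S S' : Finset V} (hS : S ⊆ S') {l : List V}
    (h : PT G u S l) : PT G u S' l := by
  induction h with
  | base => exact PT.base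
  | step _ h2 h3 h4 ih => exact PT.step ih h2 (hS h3) h4

theorem PT.mem {G : SimpleGraph V} {u : V} {S : Finset V} {l : List V}
    (h : PT G u S l) : u ∈ l := by
  induction h with
  | base => simp
  | step _ _ _ _ ih => exact List.mem_cons_of_mem _ ih

theorem PT.reach {G : SimpleGraph V} {u : V} {S : Finset V} {l : List V}
    (h : PT G u S l) (S' : Finset V) (hS : ∀ x ∈ l, x ∈ S') :
    ∀ y ∈ l, Relation.ReflTransGen (fun a b => G.Adj a b ∧ b ∈ S') u y := by
  induction h with
  | base =>
    intro y hy
    rw [List.mem_singleton] at hy
    rw [hy]
  | step h1 h2 h3 h4 ih =>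
    intro y hy
    have ih' := ih (fun x hx => hS x (List.mem_cons_of_mem _ hx))
    rcases List.mem_cons.1 hy with rfl | hy
    · exact (ih' _ List.mem_cons_self).tail ⟨h2.symm, hS _ List.mem_cons_self⟩
    · exact ih' y hy

theorem PT.func {G : SimpleGraph V} {u : V} {S : Finset V} {l : List V}
    (h : PT G u S l) : ∃ f : ℕ → V, f 0 = u ∧ (∀ i, i + 1 < l.length → G.Adj (f i) (f (i + 1))) ∧
      (∀ i j, i < l.length → j < l.length → f i = f j → i = j) ∧ (∀ i < l.length, f i ∈ l) ∧
      (∀ x l', l = x :: l' → f (l.length - 1) = x) := by
  induction h with
  | base =>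
    refine ⟨fun _ => u, rfl, ?_, ?_, ?_, ?_⟩
    · intro i hi; simp at hi
    · intro i j hi hj _; simp at hi hj; omega
    · intro i hi; simp
    · intro x l' hl; simp at hl; exact hl.1
  | @step a b l h1 h2 h3 h4 ih =>
    obtain ⟨f, f0, fadj, finj, fmem, flast⟩ := ih
    have hlen : (b :: a :: l).length = (a :: l).length + 1 := rfl
    have hpos : 0 < (a :: l).length := by simp
    have hfl : f ((a :: l).length - 1) = a := flast a l rfl
    refine ⟨fun i => if i < (a :: l).length then f i else b, ?_, ?_, ?_, ?_, ?_⟩
    · simp only [hpos, if_true, f0]
    · intro i hi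
      rw [hlen] at hi
      by_cases h : i + 1 < (a :: l).length
      · simp only [h, if_true, (by omega : i < (a :: l).length)]
        exact fadj i h
      · have hi2 : i = (a :: l).length - 1 := by omega
        simp only [h, if_false, (by omega : i < (a :: l).length), if_true]
        rw [hi2, hfl]
        exact h2.symm
    · intro i j hi hj hij
      rw [hlen] at hi hj
      by_cases h5 : i < (a :: l).length
      · by_cases h6 : j < (a :: l).length
        · simp only [h5, h6, if_true] at hij
          exact finj i j h5 h6 hij
        · simp only [h5, h6, if_true, if_false] at hij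
          exact absurd (hij ▸ fmem i h5) h4
      · by_cases h6 : j < (a :: l).length
        · simp only [h5, h6, if_true, if_false] at hij
          exact absurd (hij.symm ▸ fmem j h6) h4
        · omega
    · intro i hi
      by_cases h5 : i < (a :: l).length
      · simp only [h5, if_true]
        exact List.mem_cons_of_mem _ (fmem i h5)
      · simp only [h5, if_false]
        exact List.mem_cons_self
    · intro x l' hl
      have : ¬ ((b :: a :: l).length - 1 < (a :: l).length) := by
        rw [hlen]; omega
      simp only [this, if_false]
      injection hl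

theorem PT.count {G : SimpleGraph V} {c : V → Bool} (hc : ∀ a b, G.Adj a b → c a ≠ c b) {u : V}
    {S : Finset V} {l : List V} (h : PT G u S l) :
    ∀ x l', l = x :: l' → l.countP (fun y => decide (c y ≠ c x)) ≤ l.length / 2 ∧
      l.countP (fun y => decide (c y = c x)) ≤ (l.length + 1) / 2 := by
  induction h with
  | base =>
    intro x l' hl
    injection hl with h1 h2
    subst h1
    simp
  | @step a b l h1 h2 h3 h4 ih =>
    intro x l' hl
    injection hl with h5 h6
    subst h5
    obtain ⟨ih1, ih2⟩ := ih a l rfl
    have hne := hc _ _ h2
    have e1 : (fun y => decide (c y ≠ c b)) = (fun y => decide (c y = c a)) := by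
      funext y
      revert hne
      cases c b <;> cases c a <;> cases c y <;> simp
    have e2 : (fun y => decide (c y = c b)) = (fun y => decide (c y ≠ c a)) := by
      funext y
      revert hne
      cases c b <;> cases c a <;> cases c y <;> simp
    have hlen : (b :: a :: l).length = (a :: l).length + 1 := rfl
    constructor
    · rw [e1, List.countP_cons_of_neg (by simpa using hne), hlen]
      exact ih2
    · rw [e2, List.countP_cons, hlen]
      have : (if (decide (c b ≠ c a)) = true then 1 else 0) ≤ 1 := by split_ifs <;> omega
      omega

end V11174.Broom
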