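import Pool.Agent.V11174.BroomA

set_option autoImplicit false
set_option linter.unusedSectionVars false

namespace V11174.Broom

open Finset

variable {V : Type} [Fintype V] [DecidableEq V]

theorem sum_insert_pairs (G : SimpleGraph V) [DecidableRel G.Adj] (S : Finset V) (x : V)
    (hx : x ∉ S) :
    ∑ a ∈ insert x S, ((insert x S).filter (G.Adj a)).card =
      ∑ a ∈ S, (S.filter (G.Adj a)).card + 2 * (S.filter (G.Adj x)).card := by
  rw [sum_insert hx]
  have h1 : (insert x S).filter (G.Adj x) = S.filter (G.Adj x) := by
    rw [filter_insert, if_neg (G.irrefl)]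
  have h2 : ∀ a ∈ S, ((insert x S).filter (G.Adj a)).card =
      (S.filter (G.Adj a)).card + (if G.Adj x a then 1 else 0) := by
    intro a ha
    rw [filter_insert]
    by_cases h : G.Adj a x
    · rw [if_pos h, if_pos h.symm, card_insert_of_notMem (fun hh => hx (mem_filter.1 hh).1)]
    · rw [if_neg h, if_neg (fun hh => h hh.symm), add_zero]
  have h3 : ∑ a ∈ S, (if G.Adj x a then 1 else 0) = (S.filter (G.Adj x)).card :=
    (card_filter _ _).symm
  rw [h1, sum_congr rfl h2, sum_add_distrib, h3]
  omega

theorem count_edges (G : SimpleGraph V) [DecidableRel G.Adj] (c : V → Bool)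
    (hc : ∀ a b, G.Adj a b → c a ≠ c b) (u : V) (s : ℕ) : ∀ (k : ℕ) (S : Finset V), S.card = k + 1 →
    u ∈ S → (∀ y ∈ S, Relation.ReflTransGen (fun a b => G.Adj a b ∧ b ∈ S) u y) →
    (∀ l, PT G u S l → l.length ≤ s) →
    ∑ a ∈ S, (S.filter (G.Adj a)).card ≤ s * k := by
  intro k
  induction k with
  | zero =>
    intro S hS hu _ _
    rw [zero_add, card_eq_one] at hS
    obtain ⟨z, rfl⟩ := hS
    simp
  | succ k ih =>
    intro S hS hu hreach hlen
    -- longest path
    have hex : ∃ l, PT G u S l ∧ ∀ l', PT G u S l' → l'.length ≤ l.length := by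
      classical
      have h1 : ∃ m, m ≤ s ∧ ∃ l, PT G u S l ∧ l.length = m :=
        ⟨1, hlen [u] PT.base, [u], PT.base, rfl⟩
      obtain ⟨m, hm, hm1⟩ := h1
      have h2 := Nat.findGreatest_spec (P := fun m => ∃ l, PT G u S l ∧ l.length = m) hm hm1
      obtain ⟨l, hl, hl2⟩ := h2
      refine ⟨l, hl, fun l' hl' => ?_⟩
      rw [hl2]
      exact Nat.le_findGreatest (hlen l' hl') ⟨l', hl', rfl⟩
    obtain ⟨l, hl, hmax⟩ := hex
    obtain ⟨x, l', rfl⟩ : ∃ x l', l = x :: l' := by
      cases hl with
      | base => exact ⟨_, _, rfl⟩
      | step _ _ _ _ => exact ⟨_, _, rfl⟩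
    -- all neighbours of `x` lie on the path
    have hnb : ∀ y ∈ S, G.Adj x y → y ∈ x :: l' := by
      intro y hy hxy
      by_contra hcon
      have := hmax _ (PT.step hl hxy.symm hy hcon)
      simp at this
    have hl'ne : l' ≠ [] := by
      rintro rfl
      have hxu : x = u := by
        have := hl.mem
        simp at this
        exact this.symm
      subst hxu
      have hall : ∀ y, Relation.ReflTransGen (fun a b => G.Adj a b ∧ b ∈ S) x y → y = x := by
        intro y hy
        induction hy with
        | refl => rfl
        | tail _ h2 ih2 =>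
          rw [ih2] at h2
          have h3 := hnb _ h2.2 h2.1
          rw [List.mem_singleton] at h3
          exact h3
      have : S = {x} := by
        ext y
        rw [mem_singleton]
        exact ⟨fun hy => hall y (hreach y hy), fun h => h ▸ hu⟩
      rw [this, card_singleton] at hS
      omega
    obtain ⟨a, l'', rfl⟩ := List.exists_cons_of_ne_nil hl'ne
    have htail : PT G u S (a :: l'') := by
      cases hl with
      | step h1 _ _ _ => exact h1
    have hxS : x ∈ S := hl.sub hu x List.mem_cons_self
    have hxn : x ∉ a :: l'' := (List.nodup_cons.1 hl.nodup).1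
    have hux : u ≠ x := fun h => hxn (h ▸ htail.mem)
    have hins : insert x (S.erase x) = S := insert_erase hxS
    have hcardE : (S.erase x).card = k + 1 := by
      rw [card_erase_of_mem hxS, hS]; rfl
    have hsub : ∀ y ∈ a :: l'', y ∈ S.erase x := fun y hy =>
      mem_erase.2 ⟨fun h => hxn (h ▸ hy), htail.sub hu y hy⟩
    have hr2 := htail.reach (S.erase x) hsub
    have hreach' : ∀ y ∈ S.erase x,
        Relation.ReflTransGen (fun a b => G.Adj a b ∧ b ∈ S.erase x) u y := by
      have key : ∀ y, Relation.ReflTransGen (fun a b => G.Adj a b ∧ b ∈ S) u y → y ≠ x →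
          Relation.ReflTransGen (fun a b => G.Adj a b ∧ b ∈ S.erase x) u y := by
        intro y hy
        induction hy with
        | refl => exact fun _ => Relation.ReflTransGen.refl
        | @tail b d _ h2 ih2 =>
          intro hdx
          by_cases hbx : b = x
          · rw [hbx] at h2
            have h3 := hnb d h2.2 h2.1
            rcases List.mem_cons.1 h3 with h4 | h4
            · exact absurd h4 hdx
            · exact hr2 d h4
          · exact (ih2 hbx).tail ⟨h2.1, mem_erase.2 ⟨hdx, h2.2⟩⟩
      intro y hy
      exact key y (hreach y (mem_of_mem_erase hy)) (ne_of_mem_erase hy)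
    have hih := ih (S.erase x) hcardE (mem_erase.2 ⟨hux, hu⟩) hreach'
      (fun l hl => hlen l (hl.mono (erase_subset _ _)))
    have hdeg : ((S.erase x).filter (G.Adj x)).card ≤ s / 2 := by
      have h1 : ((S.erase x).filter (G.Adj x)) ⊆
          ((x :: a :: l'').filter (fun y => decide (c y ≠ c x))).toFinset := by
        intro y hy
        rw [mem_filter, mem_erase] at hy
        rw [List.mem_toFinset, List.mem_filter]
        exact ⟨hnb y hy.1.2 hy.2, by simpa using (hc _ _ hy.2).symm⟩
      refine (card_le_card h1).trans ((List.toFinset_card_le _).trans ?_)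
      rw [← List.countP_eq_length_filter]
      refine ((hl.count hc) x _ rfl).1.trans ?_
      exact Nat.div_le_div_right (hlen _ hl)
    have hfin := sum_insert_pairs G (S.erase x) x (notMem_erase x S)
    rw [hins] at hfin
    rw [hfin]
    calc _ ≤ s * k + 2 * (s / 2) := by
          have := Nat.mul_le_mul_left 2 hdeg
          omega
      _ ≤ s * k + s := by
          have := Nat.mul_div_le s 2
          omega
      _ = s * (k + 1) := by ring

/-- If a connected bipartite graph has no path with more than `s` vertices starting at `u`, then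
twice its number of edges is at most `s * |V|`. -/
theorem edges_le (G : SimpleGraph V) [DecidableRel G.Adj] (hG : G.Connected) (c : V → Bool)
    (hc : ∀ a b, G.Adj a b → c a ≠ c b) (u : V) (s : ℕ)
    (hlen : ∀ l, PT G u univ l → l.length ≤ s) :
    2 * G.edgeFinset.card ≤ s * Fintype.card V := by
  rw [← G.sum_degrees_eq_twice_card_edges]
  have hcard : (univ : Finset V).card = (Fintype.card V - 1) + 1 := by
    have : 0 < Fintype.card V := Fintype.card_pos_iff.2 ⟨u⟩
    rw [card_univ]; omega
  have h := count_edges G c hc u s (Fintype.card V - 1) univ hcard (mem_univ _) (by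
    intro y _
    have h1 := (SimpleGraph.reachable_iff_reflTransGen u y).1 (hG.preconnected u y)
    exact Relation.ReflTransGen.mono (fun a b hab => ⟨hab, mem_univ _⟩) _ _ h1) hlen
  have h2 : ∀ a, (univ.filter (G.Adj a)).card = G.degree a := by
    intro a
    rw [← SimpleGraph.card_neighborFinset_eq_degree]
    congr 1
    ext y
    simp
  simp only [h2] at h
  refine h.trans (Nat.mul_le_mul_left s (Nat.sub_le _ _))

end V11174.Broom
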