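import Pool.Agent.V11174.BroomB

set_option autoImplicit false
set_option linter.unusedSectionVars false

namespace V11174.Broom

open Finset

/-- parent of the vertex `i` of the broom -/
def par (s i : ℕ) : ℕ := if i ≤ s then i - 1 else 0

theorem par_lt {s i : ℕ} (hi : 0 < i) : par s i < i := by
  unfold par; split_ifs <;> omega

/-- the broom: a path `0, 1, ..., s` and `s` further leaves `s+1, ..., 2s` attached to `0` -/
def broom (s : ℕ) : SimpleGraph (Fin (2 * s + 1)) where
  Adj i j := (0 < i.1 ∧ j.1 = par s i.1) ∨ (0 < j.1 ∧ i.1 = par s j.1)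
  symm := ⟨fun _ _ h => h.symm⟩
  loopless := ⟨fun i h => by
    rcases h with ⟨h1, h2⟩ | ⟨h1, h2⟩
    · exact absurd h2 (par_lt h1).ne'
    · exact absurd h2 (par_lt h1).ne'⟩

theorem broom_isTree (s : ℕ) : (broom s).IsTree := by
  classical
  have hp : ∀ i : Fin (2 * s + 1), 0 < i.1 → par s i.1 < 2 * s + 1 := fun i hi =>
    (par_lt hi).trans i.2
  have hconn : (broom s).Connected := by
    rw [SimpleGraph.connected_iff_exists_forall_reachable]
    refine ⟨⟨0, by omega⟩, ?_⟩
    have key : ∀ m : ℕ, ∀ i : Fin (2 * s + 1), i.1 = m → (broom s).Reachable ⟨0, by omega⟩ i := by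
      intro m
      induction m using Nat.strong_induction_on with
      | _ m ih =>
        intro i hi
        rcases Nat.eq_zero_or_pos i.1 with h | h
        · have : i = ⟨0, by omega⟩ := Fin.ext h
          rw [this]
        · have h1 := ih (par s i.1) (hi ▸ par_lt h) ⟨par s i.1, hp i h⟩ rfl
          refine h1.trans (SimpleGraph.Adj.reachable ?_)
          exact Or.inr ⟨h, rfl⟩
    exact fun i => key i.1 i rfl
  rw [SimpleGraph.isTree_iff_connected_and_card]
  refine ⟨hconn, ?_⟩
  have h1 := hconn.card_vert_le_card_edgeSet_add_one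
  have h2 : Nat.card (broom s).edgeSet ≤ (univ.erase (⟨0, by omega⟩ : Fin (2 * s + 1))).card := by
    rw [Nat.card_coe_set_eq]
    have : (broom s).edgeSet ⊆ ↑((univ.erase (⟨0, by omega⟩ : Fin (2 * s + 1))).image
        fun x => s(x, (⟨min (par s x.1) (2 * s), by omega⟩ : Fin (2 * s + 1)))) := by
      intro e he
      rw [mem_coe, mem_image]
      induction e with
      | _ a b =>
        rw [SimpleGraph.mem_edgeSet] at he
        rcases he with ⟨h3, h4⟩ | ⟨h3, h4⟩
        · refine ⟨a, mem_erase.2 ⟨fun h => by rw [h] at h3; simp at h3, mem_univ _⟩, ?_⟩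
          have : (⟨min (par s a.1) (2 * s), by omega⟩ : Fin (2 * s + 1)) = b := by
            apply Fin.ext
            have := b.2
            simp only
            omega
          rw [this]
        · refine ⟨b, mem_erase.2 ⟨fun h => by rw [h] at h3; simp at h3, mem_univ _⟩, ?_⟩
          have : (⟨min (par s b.1) (2 * s), by omega⟩ : Fin (2 * s + 1)) = a := by
            apply Fin.ext
            have := a.2
            simp only
            omega
          rw [this, Sym2.eq_swap]
    refine (Set.ncard_le_ncard this (Finset.finite_toSet _)).trans ?_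
    rw [Set.ncard_coe_finset]
    exact card_image_le
  have h3 : (univ.erase (⟨0, by omega⟩ : Fin (2 * s + 1))).card = 2 * s := by
    rw [card_erase_of_mem (mem_univ _), card_univ, Fintype.card_fin]; rfl
  have h5 : Nat.card (Fin (2 * s + 1)) = 2 * s + 1 := by simp
  omega

variable {V : Type} [Fintype V] [DecidableEq V]

/-- a path with `s + 1` vertices starting at `v` and `s` further neighbours of `v` give a broom -/
theorem embed (G : SimpleGraph V) (s : ℕ) (v : V) (f : ℕ → V) (hf0 : f 0 = v)
    (hadj : ∀ i, i < s → G.Adj (f i) (f (i + 1)))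
    (hinj : ∀ i j, i ≤ s → j ≤ s → f i = f j → i = j) (L : Finset V) (hL : s ≤ L.card)
    (hLv : ∀ x ∈ L, G.Adj v x) (hLf : ∀ x ∈ L, ∀ i ≤ s, f i ≠ x) :
    ∃ g : Fin (2 * s + 1) → V, Function.Injective g ∧ ∀ a b, (broom s).Adj a b → G.Adj (g a) (g b) := by
  classical
  obtain ⟨L', hL', hc⟩ := exists_subset_card_eq hL
  let e : Fin s ≃ L' := (Fin.castOrderIso hc.symm).toEquiv.trans (L'.equivFin).symm
  have hin : ∀ j : Fin s, (e j : V) ∈ L := fun j => hL' (e j).2
  let g : Fin (2 * s + 1) → V := fun i =>
    if h : i.1 ≤ s then f i.1 else (e ⟨i.1 - (s + 1), by have := i.2; omega⟩ : V)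
  have g1 : ∀ i : Fin (2 * s + 1), i.1 ≤ s → g i = f i.1 := fun i h => dif_pos h
  have g2 : ∀ (i : Fin (2 * s + 1)) (h : ¬ i.1 ≤ s),
      g i = (e ⟨i.1 - (s + 1), by have := i.2; omega⟩ : V) := fun i h => dif_neg h
  refine ⟨g, ?_, ?_⟩
  · intro i j hij
    by_cases hi : i.1 ≤ s
    · by_cases hj : j.1 ≤ s
      · rw [g1 i hi, g1 j hj] at hij
        exact Fin.ext (hinj _ _ hi hj hij)
      · rw [g1 i hi, g2 j hj] at hij
        exact absurd hij (hLf _ (hin _) _ hi)
    · by_cases hj : j.1 ≤ s
      · rw [g2 i hi, g1 j hj] at hij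
        exact absurd hij.symm (hLf _ (hin _) _ hj)
      · rw [g2 i hi, g2 j hj] at hij
        have h1 := e.injective (Subtype.ext hij)
        have h2 := congrArg Fin.val h1
        simp only at h2
        apply Fin.ext
        omega
  · have key : ∀ a b : Fin (2 * s + 1), 0 < a.1 → b.1 = par s a.1 → G.Adj (g b) (g a) := by
      intro a b ha hb
      by_cases h : a.1 ≤ s
      · have hpar : par s a.1 = a.1 - 1 := by unfold par; rw [if_pos h]
        rw [g1 a h, g1 b (by omega), hb, hpar]
        have := hadj (a.1 - 1) (by omega)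
        rwa [Nat.sub_add_cancel ha] at this
      · have hpar : par s a.1 = 0 := by unfold par; rw [if_neg h]
        rw [g2 a h, g1 b (by omega), hb, hpar, hf0]
        exact hLv _ (hin _)
    intro a b hab
    rcases hab with ⟨h1, h2⟩ | ⟨h1, h2⟩
    · exact (key a b h1 h2).symm
    · exact key b a h1 h2

end V11174.Broom
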